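import Mathlib

set_option autoImplicit false
set_option maxRecDepth 20000

/-!
# Periods of the max-type recurrence `x_{n+k} = max {x_{n+k-1}, …, x_{n+1}, 0} - x_n`

Sequences are indexed by `n = 0, 1, 2, …` (a shift of the index by one, which changes nothing).
-/

namespace Pool.Agent.R206.Old.PeriodsOutside06047d

/-- `x` satisfies `x_{n+k} = max {x_{n+k-1}, …, x_{n+1}, 0} - x_n` for all `n`. -/
def IsSolution (k : ℕ) (x : ℕ → ℝ) : Prop :=
  ∀ n, x (n + k) = (Finset.Ico 1 k).fold max 0 (fun i => x (n + i)) - x n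

/-- `N` is the (least) period of the sequence `x`. -/
def IsPeriod (x : ℕ → ℝ) (N : ℕ) : Prop :=
  IsLeast {p : ℕ | 0 < p ∧ ∀ n, x (n + p) = x n} N

/-- The set `Per(F_k)` of the least periods of all periodic solutions. -/
def Per (k : ℕ) : Set ℕ := {N | ∃ x : ℕ → ℝ, IsSolution k x ∧ IsPeriod x N}

/-- The set `{1, (3 - (-1)^k)/2, 2k, 3k-1} ∪ {(3k-2)a + (3k-1)b : a, b ≥ 1, gcd(a,b) = 1}`. -/
def Claimed (k : ℕ) : Set ℕ :=
  {N | N = 1 ∨ 2 * (N : ℤ) = 3 - (-1) ^ k ∨ N = 2 * k ∨ N = 3 * k - 1 ∨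
    ∃ a b : ℕ, 1 ≤ a ∧ 1 ≤ b ∧ Nat.gcd a b = 1 ∧ N = (3 * k - 2) * a + (3 * k - 1) * b}

/-- integer version of the recurrence for a function on one period -/
lemma isSolution_cast (k N : ℕ) (hN : 0 < N) (z : ℕ → ℤ)
    (h : ∀ r < N, z ((r + k) % N) =
      (Finset.Ico 1 k).fold max 0 (fun i => z ((r + i) % N)) - z r) :
    IsSolution k (fun n => ((z (n % N) : ℤ) : ℝ)) := by
  intro n
  have h1 := h (n % N) (Nat.mod_lt _ hN)
  simp only [Nat.mod_add_mod] at h1
  simp only
  rw [h1]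
  push_cast
  congr 1
  have : ∀ s : Finset ℕ, ((s.fold max 0 (fun i => z ((n + i) % N)) : ℤ) : ℝ) =
      s.fold max 0 (fun i => ((z ((n + i) % N) : ℤ) : ℝ)) := by
    intro s
    induction s using Finset.induction_on with
    | empty => simp
    | insert a s ha ih => rw [Finset.fold_insert ha, Finset.fold_insert ha, Int.cast_max, ih]
  exact this _

lemma isPeriod_cast (N : ℕ) (hN : 0 < N) (z : ℕ → ℤ)
    (h : ∀ p < N, 0 < p → ∃ r < N, z ((r + p) % N) ≠ z r) :
    IsPeriod (fun n => ((z (n % N) : ℤ) : ℝ)) N := by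
  refine ⟨⟨hN, fun n => by simp⟩, ?_⟩
  rintro p ⟨hp, hp'⟩
  by_contra hlt
  push Not at hlt
  obtain ⟨r, hr, hne⟩ := h p hlt hp
  apply hne
  have := hp' r
  simp only [Nat.mod_eq_of_lt hr] at this
  exact_mod_cast this

/-- one period of a solution for `k = 5` -/
def L5 : List ℤ := [0, 1, 0, 0, -1, 1, 0, 1, 1, 2, 1, 2, 1, 1, 0, 1, -1, 0, 0, 1, 0, 2, 2, 2, 1, 2,
  0, 0, 0, 1, -1, 1, 1, 1, 0, 2, 1, 1, 1, 2, 0, 1, 1, 1, -1, 1, 0, 0, 0, 2, 1, 2, 2, 2]

/-- one period of a solution for `k = 7` -/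
def L7 : List ℤ := [2, 2, 1, 1, 2, 2, 1, 0, 0, 1, 1, 0, -1, 0, 1, 1, 0, 0, 1]

/-- one period of a solution for `k = 8` -/
def L8 : List ℤ := [3, 3, 2, 2, 3, 3, 2, 1, 0, 0, 1, 1, 0, -1, -1, 0, 1, 1, 0, 0, 1, 2]

theorem per5 : 54 ∈ Per 5 := by
  refine ⟨fun n => (((L5.getD (n % 54) 0 : ℤ)) : ℝ), ?_, ?_⟩
  · exact isSolution_cast 5 54 (by norm_num) (fun n => L5.getD n 0) (by decide)
  · exact isPeriod_cast 54 (by norm_num) (fun n => L5.getD n 0) (by decide)

theorem per7 : 19 ∈ Per 7 := by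
  refine ⟨fun n => (((L7.getD (n % 19) 0 : ℤ)) : ℝ), ?_, ?_⟩
  · exact isSolution_cast 7 19 (by norm_num) (fun n => L7.getD n 0) (by decide)
  · exact isPeriod_cast 19 (by norm_num) (fun n => L7.getD n 0) (by decide)

theorem per8 : 22 ∈ Per 8 := by
  refine ⟨fun n => (((L8.getD (n % 22) 0 : ℤ)) : ℝ), ?_, ?_⟩
  · exact isSolution_cast 8 22 (by norm_num) (fun n => L8.getD n 0) (by decide)
  · exact isPeriod_cast 22 (by norm_num) (fun n => L8.getD n 0) (by decide)

/-- If `k = d h` with `d` odd, `d ≥ 3` and `h ≥ 2`, there is a solution of period `2 h`. -/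
theorem per_even (h d : ℕ) (hh : 1 ≤ h) (hd : Odd d) (hd1 : 1 < d) : 2 * h ∈ Per (d * h) := by
  have hd3 : 3 ≤ d := by
    rcases hd with ⟨c, rfl⟩
    omega
  have hdh : 3 * h ≤ d * h := Nat.mul_le_mul_right h hd3
  set z : ℕ → ℤ := fun n => if n < h then 1 else 0 with hz
  refine ⟨fun n => ((z (n % (2 * h)) : ℤ) : ℝ), ?_, ?_⟩
  · apply isSolution_cast _ _ (by omega)
    intro r hr
    have hmax : (Finset.Ico 1 (d * h)).fold max 0 (fun i => z ((r + i) % (2 * h))) = 1 := by
      apply le_antisymm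
      · rw [Finset.fold_max_le]
        refine ⟨by norm_num, fun i _ => ?_⟩
        simp only [hz]
        split_ifs <;> norm_num
      · rw [Finset.le_fold_max]
        right
        refine ⟨2 * h - r, ?_, ?_⟩
        · rw [Finset.mem_Ico]
          omega
        · have : r + (2 * h - r) = 2 * h := by omega
          rw [this, Nat.mod_self]
          simp only [hz]
          rw [if_pos (by omega)]
    rw [hmax]
    have hmod : (r + d * h) % (2 * h) = (r + h) % (2 * h) := by
      obtain ⟨c, rfl⟩ := hd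
      have : r + (2 * c + 1) * h = (r + h) + (2 * h) * c := by ring
      rw [this, Nat.add_mul_mod_self_left]
    rw [hmod]
    simp only [hz]
    by_cases h1 : r < h
    · rw [Nat.mod_eq_of_lt (by omega), if_neg (by omega), if_pos h1]
      norm_num
    · have : (r + h) % (2 * h) = r - h := by
        rw [Nat.mod_eq_sub_mod (by omega)]
        rw [Nat.mod_eq_of_lt (by omega)]
        omega
      rw [this, if_pos (by omega), if_neg h1]
      norm_num
  · apply isPeriod_cast _ (by omega)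
    intro p hp hp0
    by_cases h1 : p ≤ h
    · refine ⟨h - p, by omega, ?_⟩
      have : h - p + p = h := by omega
      rw [this, Nat.mod_eq_of_lt (by omega)]
      simp only [hz]
      rw [if_neg (by omega), if_pos (by omega)]
      norm_num
    · refine ⟨0, by omega, ?_⟩
      rw [zero_add, Nat.mod_eq_of_lt hp]
      simp only [hz]
      rw [if_neg (by omega), if_pos (by omega)]
      norm_num

/-- **The inclusion is false.** For `k = 5` there is a solution of least period `54`, for `k = 7`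
one of least period `19`, for `k = 8` one of least period `22`, and for every `k` which has an odd
divisor `d` with `1 < d < k` (so for every `k ≥ 5` that is neither prime nor a power of `2`) there
is one of least period `2 k / d`. None of these numbers is in the claimed set. In particular the
inclusion `Per(F_k) ⊆ Claimed(k)` fails for all these `k`. -/
theorem result :
    (54 ∈ Per 5 ∧ 54 ∉ Claimed 5) ∧ (19 ∈ Per 7 ∧ 19 ∉ Claimed 7) ∧
    (22 ∈ Per 8 ∧ 22 ∉ Claimed 8) ∧
    (∀ k d : ℕ, d ∣ k → Odd d → 1 < d → d < k → 2 * k / d ∈ Per k ∧ 2 * k / d ∉ Claimed k) ∧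
    ∀ k : ℕ, (k = 5 ∨ k = 7 ∨ k = 8 ∨ ∃ d, d ∣ k ∧ Odd d ∧ 1 < d ∧ d < k) →
      ¬ (Per k ⊆ Claimed k) := by
  have h5 : 54 ∉ Claimed 5 := by
    rintro (h | h | h | h | ⟨a, b, ha, hb, hab, h⟩)
    · omega
    · norm_num at h
    · omega
    · omega
    · norm_num at h
      have : b ≤ 3 := by omega
      interval_cases b
      · omega
      · have : a = 2 := by omega
        subst this
        norm_num at hab
      · omega
  have h7 : 19 ∉ Claimed 7 := by
    rintro (h | h | h | h | ⟨a, b, ha, hb, hab, h⟩)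
    · omega
    · norm_num at h
    · omega
    · omega
    · norm_num at h
      omega
  have h8 : 22 ∉ Claimed 8 := by
    rintro (h | h | h | h | ⟨a, b, ha, hb, hab, h⟩)
    · omega
    · norm_num at h
    · omega
    · omega
    · norm_num at h
      omega
  have hk : ∀ k d : ℕ, d ∣ k → Odd d → 1 < d → d < k →
      2 * k / d ∈ Per k ∧ 2 * k / d ∉ Claimed k := by
    rintro k d ⟨h, rfl⟩ hd hd1 hdk
    have hh : 2 ≤ h := by
      by_contra hlt
      have : h = 0 ∨ h = 1 := by omega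
      rcases this with rfl | rfl <;> simp at hdk
    have hd3 : 3 ≤ d := by
      rcases hd with ⟨c, rfl⟩
      omega
    have hdh : 3 * h ≤ d * h := Nat.mul_le_mul_right h hd3
    have e : 2 * (d * h) / d = 2 * h := by
      rw [show 2 * (d * h) = d * (2 * h) by ring]
      exact Nat.mul_div_cancel_left _ (by omega)
    rw [e]
    refine ⟨per_even h d (by omega) hd hd1, ?_⟩
    rintro (h1 | h1 | h1 | h1 | ⟨a, b, ha, hb, hab, h1⟩)
    · omega
    · have h2 : (3 : ℤ) - (-1) ^ (d * h) ≤ 4 := by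
        rcases neg_one_pow_eq_or ℤ (d * h) with h3 | h3 <;> rw [h3] <;> norm_num
      have h4 : (2 : ℤ) * ((2 * h : ℕ) : ℤ) ≤ 4 := h1 ▸ h2
      push_cast at h4
      omega
    · omega
    · omega
    · have h2 : (3 * (d * h) - 2) * 1 ≤ (3 * (d * h) - 2) * a := Nat.mul_le_mul_left _ ha
      have h3 : (3 * (d * h) - 1) * 1 ≤ (3 * (d * h) - 1) * b := Nat.mul_le_mul_left _ hb
      omega
  refine ⟨⟨per5, h5⟩, ⟨per7, h7⟩, ⟨per8, h8⟩, hk, ?_⟩
  rintro k (rfl | rfl | rfl | ⟨d, h1, h2, h3, h4⟩) hsub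
  · exact h5 (hsub per5)
  · exact h7 (hsub per7)
  · exact h8 (hsub per8)
  · exact (hk k d h1 h2 h3 h4).2 (hsub (hk k d h1 h2 h3 h4).1)

end Pool.Agent.R206.Old.PeriodsOutside06047d
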